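import Mathlib
import Pool.Agent.TH785.LT.Real

/-!
# A finite basis for the `ℵ₁`-dense LOTS of countable character

`𝒞` is the class of all `ℵ₁`-dense linear orders in which every point has countable cofinality and
countable coinitiality (`InC`), `⪯` is LOTS embeddability (`LOTSEmbeds`).

Moore's theorem (PFA: the uncountable linear orders have a five-element basis under order embedding),
Baumgartner's theorem (PFA implies `BaumgartnerAxiom`) and the theorem of Solovay and Tennenbaum (PFA
implies `SuslinHypothesis`) give the hypotheses of the last two clauses under PFA, with `n = 5`. So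
PFA implies that `𝒞` has a basis with six elements.
-/

set_option autoImplicit false

namespace Pool.Agent.Results.MP_6f3246_lc.FiniteBasis

open Pool.Agent.TH785.LT

/-- **Main result.**
1. (ZFC) If the uncountable linear orders have a basis with `n` elements under order embedding and
the members of `𝒞` with the countable chain condition have a basis with `m` elements under LOTS
embedding, then `𝒞` has a basis with `n + m` elements under LOTS embedding.
2. (ZFC) If `𝒞` has a basis with `n` elements then so has the class of its ccc members.
3. Under Baumgartner's axiom and Suslin's hypothesis the ccc members of `𝒞` have a basis with one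
element.
4. Under Baumgartner's axiom and Suslin's hypothesis, if the uncountable linear orders have a basis
with `n` elements then `𝒞` has a basis with `n + 1` elements. -/
theorem result :
    (∀ n m : ℕ, HasBasis n IsUncountable OrderEmbeds →
      HasBasis m (fun L => InC L ∧ CCC L) LOTSEmbeds → HasBasis (n + m) InC LOTSEmbeds) ∧
    (∀ n : ℕ, HasBasis n InC LOTSEmbeds → HasBasis n (fun L => InC L ∧ CCC L) LOTSEmbeds) ∧
    (BaumgartnerAxiom → SuslinHypothesis →
      HasBasis 1 (fun L => InC L ∧ CCC L) LOTSEmbeds) ∧
    (BaumgartnerAxiom → SuslinHypothesis → ∀ n : ℕ, HasBasis n IsUncountable OrderEmbeds →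
      HasBasis (n + 1) InC LOTSEmbeds) :=
  ⟨fun _ _ h1 h2 => reduction h1 h2, fun _ h => ccc_basis_of_basis h, ccc_basis,
    fun h1 h2 _ h => reduction h (ccc_basis h1 h2)⟩

end Pool.Agent.Results.MP_6f3246_lc.FiniteBasis
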